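import Mathlib

set_option autoImplicit false

namespace Pool.Agent.H.MP_27c522_an

open Finset Filter Topology

/-- triangular power -/
noncomputable def tp (q : ℝ) (k : ℕ) : ℝ := ∏ j ∈ range k, q ^ (j + 1)
/-- numerator -/
noncomputable def nu (q : ℝ) (N k : ℕ) : ℝ := ∏ j ∈ range k, (1 - q ^ N / q ^ j)
/-- denominator -/
noncomputable def de (q : ℝ) (N k : ℕ) : ℝ := ∏ j ∈ range k, (1 - q ^ (N + 2 + j))
/-- coefficient -/
noncomputable def c (q : ℝ) (N k : ℕ) : ℝ := tp q k * (nu q N k / de q N k)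
/-- weight -/
def u (k : ℕ) : ℝ := (-1) ^ k * (2 * k + 1)
/-- Euler product -/
noncomputable def P (q : ℝ) (m : ℕ) : ℝ := ∏ j ∈ range m, (1 - q ^ (j + 1))

variable {q : ℝ}

theorem one_sub (h0 : 0 < q) (h1 : q < 1) (m : ℕ) : 0 < 1 - q ^ (m + 1) :=
  sub_pos.2 (pow_lt_one₀ h0.le h1 (Nat.succ_ne_zero m))

theorem de_pos (h0 : 0 < q) (h1 : q < 1) (N k : ℕ) : 0 < de q N k :=
  prod_pos fun j _ => by
    have := one_sub h0 h1 (N + 1 + j); rwa [show N + 1 + j + 1 = N + 2 + j by ring] at this

theorem c_succ (h0 : 0 < q) (h1 : q < 1) (N k : ℕ) :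
    c q N (k + 1) = c q N k * (q ^ (k + 1) * (1 - q ^ N / q ^ k) / (1 - q ^ (N + 2 + k))) := by
  have := (de_pos h0 h1 N k).ne'
  simp only [c, tp, nu, de, prod_range_succ] at *
  field_simp

theorem c_up (h0 : 0 < q) (h1 : q < 1) (N k : ℕ) :
    c q (N + 1) (k + 1) = c q N k * (q ^ (k + 1) * ((1 - q ^ (N + 1)) * (1 - q ^ (N + 2))) /
      ((1 - q ^ (N + 2 + k)) * (1 - q ^ (N + 2 + (k + 1))))) := by
  have e1 : nu q (N + 1) (k + 1) = nu q N k * (1 - q ^ (N + 1)) := by
    simp only [nu, prod_range_succ', pow_zero, div_one]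
    congr 1
    refine prod_congr rfl fun j _ => ?_
    have := h0.ne'
    field_simp
    ring
  have e2 : de q (N + 1) (k + 1) * (1 - q ^ (N + 2)) =
      de q N k * (1 - q ^ (N + 2 + k)) * (1 - q ^ (N + 2 + (k + 1))) := by
    have : de q N (k + 2) = de q (N + 1) (k + 1) * (1 - q ^ (N + 2)) := by
      unfold de
      rw [prod_range_succ']
      congr 1
      exact prod_congr rfl fun j _ => by ring_nf
    rw [← this]; simp only [de, prod_range_succ]
  have a := (de_pos h0 h1 N k).ne'
  have b := (de_pos h0 h1 (N + 1) (k + 1)).ne'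
  have d1 := (one_sub h0 h1 (N + 1 + k)).ne'
  have d2 := (one_sub h0 h1 (N + 2 + k)).ne'
  rw [show N + 1 + k + 1 = N + 2 + k by ring] at d1
  rw [show N + 2 + k + 1 = N + 2 + (k + 1) by ring] at d2
  simp only [c, e1, tp, prod_range_succ]
  field_simp
  linear_combination (-nu q N k * (1 - q ^ (N + 1))) * e2

theorem c_zero (N k : ℕ) (h0 : 0 < q) (hk : N < k) : c q N k = 0 := by
  have : nu q N k = 0 := prod_eq_zero (mem_range.2 hk) (by field_simp; ring)
  simp [c, this]

theorem tele (h0 : 0 < q) (h1 : q < 1) (N M : ℕ) :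
    (1 - q ^ (2 * N + 2)) * (1 - q ^ (2 * N + 3)) / ((1 - q ^ (N + 1)) * (1 - q ^ (N + 2))) *
      ∑ k ∈ range (M + 1), u k * c q (N + 1) k -
      (1 - q ^ (N + 1)) ^ 2 * ∑ k ∈ range (M + 1), u k * c q N k =
      q ^ (N + 1) * (u M * c q N (M + 1) - u (M + 1) * c q N M) := by
  have a1 := (one_sub h0 h1 N).ne'
  have a2 := (one_sub h0 h1 (N + 1)).ne'
  have hq := h0.ne'
  induction M with
  | zero =>
    rw [c_succ h0 h1]
    simp only [u, c, tp, nu, de, zero_add, range_one, sum_singleton, range_zero, prod_empty,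
      add_zero] at *
    field_simp
    ring
  | succ M ih =>
    rw [sum_range_succ _ (M + 1), sum_range_succ _ (M + 1), mul_add, mul_add, add_sub_add_comm, ih,
      c_up h0 h1, c_succ h0 h1 N (M + 1), c_succ h0 h1 N M]
    have d1 := (one_sub h0 h1 (N + 1 + M)).ne'
    have d2 := (one_sub h0 h1 (N + 2 + M)).ne'
    rw [show N + 1 + M + 1 = N + 2 + M by ring] at d1
    rw [show N + 2 + M + 1 = N + 2 + (M + 1) by ring] at d2
    simp only [u]
    push_cast
    field_simp
    ring

theorem closed (h0 : 0 < q) (h1 : q < 1) (N : ℕ) :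
    (∑ k ∈ range (N + 1), u k * c q N k) * P q (2 * N + 1) = P q N ^ 3 * P q (N + 1) := by
  induction N with
  | zero => simp [u, c, tp, nu, de, P]
  | succ N ih =>
    have t := tele h0 h1 N (N + 1)
    rw [c_zero N (N + 1) h0 (by omega), c_zero N (N + 1 + 1) h0 (by omega),
      sum_range_succ (fun k => u k * c q N k) (N + 1), c_zero N (N + 1) h0 (by omega)] at t
    have a1 := (one_sub h0 h1 N).ne'
    have a2 := (one_sub h0 h1 (N + 1)).ne'
    have e : P q (2 * (N + 1) + 1) =
        P q (2 * N + 1) * (1 - q ^ (2 * N + 2)) * (1 - q ^ (2 * N + 3)) := by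
      simp only [P, show 2 * (N + 1) + 1 = 2 * N + 1 + 1 + 1 by ring, prod_range_succ]
    have e1 : P q (N + 1 + 1) = P q (N + 1) * (1 - q ^ (N + 2)) := prod_range_succ _ _
    have e2 : P q (N + 1) = P q N * (1 - q ^ (N + 1)) := prod_range_succ _ _
    rw [e, e1]
    field_simp at t
    rw [e2] at ih ⊢
    linear_combination P q (2 * N + 1) * t + (1 - q ^ (N + 1)) ^ 3 * (1 - q ^ (N + 2)) * ih

theorem closed' (h0 : 0 < q) (h1 : q < 1) (N : ℕ) :
    (∑ k ∈ range (N + 1), u k * c q N k) * de q N N = P q N ^ 3 := by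
  have e : P q (2 * N + 1) = P q (N + 1) * de q N N := by
    rw [show 2 * N + 1 = N + 1 + N by ring, P, prod_range_add]
    congr 1
    exact prod_congr rfl fun j _ => by ring_nf
  have h := closed h0 h1 N
  have p : 0 < P q (N + 1) := prod_pos fun j _ => one_sub h0 h1 j
  rw [e] at h
  apply mul_right_cancel₀ p.ne'
  linear_combination h

theorem tp_le (h0 : 0 < q) (h1 : q < 1) (k : ℕ) : tp q k ≤ q ^ k := by
  calc tp q k ≤ ∏ _j ∈ range k, q := prod_le_prod (fun _ _ => by positivity) fun j _ =>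
        pow_le_of_le_one h0.le h1.le (Nat.succ_ne_zero j)
    _ = q ^ k := by simp

theorem lim_de (h0 : 0 < q) (h1 : q < 1) : Tendsto (fun N => de q N N) atTop (𝓝 1) := by
  have t : Tendsto (fun N : ℕ => 1 - N * q ^ N) atTop (𝓝 (1 - 0)) :=
    tendsto_const_nhds.sub (tendsto_self_mul_const_pow_of_lt_one h0.le h1)
  rw [sub_zero] at t
  refine tendsto_of_tendsto_of_tendsto_of_le_of_le t tendsto_const_nhds (fun N => ?_) fun N => ?_
  · have b := pow_le_one₀ (n := N) h0.le h1.le
    have := one_add_mul_le_pow (a := -q ^ N) (by linarith) N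
    calc 1 - N * q ^ N ≤ (1 + -q ^ N) ^ N := by linarith
      _ = ∏ _j ∈ range N, (1 - q ^ N) := by simp [sub_eq_add_neg]
      _ ≤ de q N N := prod_le_prod (fun _ _ => by linarith) fun j _ => by
        have := pow_le_pow_of_le_one h0.le h1.le (show N ≤ N + 2 + j by omega)
        linarith
  · exact prod_le_one (fun j _ => sub_nonneg.2 (pow_le_one₀ h0.le h1.le))
      fun j _ => sub_le_self _ (by positivity)

theorem lim_sum (h0 : 0 < q) (h1 : q < 1) :
    Tendsto (fun N => ∑ k ∈ range (N + 1), u k * c q N k) atTop (𝓝 (∑' k, u k * tp q k)) := by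
  have e : ∀ N, ∑ k ∈ range (N + 1), u k * c q N k = ∑' k, u k * c q N k := fun N =>
    (tsum_eq_sum fun k hk => by rw [c_zero N k h0 (by simpa using hk), mul_zero]).symm
  simp only [e]
  have s : Summable fun k : ℕ => (2 * k + 1) * q ^ k := by
    have a := (summable_pow_mul_geometric_of_norm_lt_one 1 (r := q)
      (by rwa [Real.norm_of_nonneg h0.le])).mul_left 2
    refine (a.add (summable_geometric_of_lt_one h0.le h1)).congr fun k => by ring
  have pw : Tendsto (fun N : ℕ => q ^ N) atTop (𝓝 0) := tendsto_pow_atTop_nhds_zero_of_lt_one h0.le h1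
  refine tendsto_tsum_of_dominated_convergence s (fun k => ?_) (Eventually.of_forall fun N k => ?_)
  · have a : Tendsto (fun N => nu q N k) atTop (𝓝 (∏ j ∈ range k, (1 - 0 / q ^ j))) :=
      tendsto_finsetProd _ fun j _ => tendsto_const_nhds.sub (pw.div_const _)
    have b : Tendsto (fun N => de q N k) atTop (𝓝 (∏ j ∈ range k, (1 - 0 * q ^ (2 + j)))) :=
      tendsto_finsetProd _ fun j _ => (tendsto_const_nhds.sub (pw.mul_const _)).congr
        fun N => by ring
    simp only [zero_div, zero_mul, sub_zero, prod_const_one] at a b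
    simpa [c] using ((a.div b one_ne_zero).const_mul (tp q k)).const_mul (u k)
  · rcases lt_or_ge N k with h | h
    · rw [c_zero N k h0 h]; simp; positivity
    have a : ∀ j ∈ range k, 0 ≤ 1 - q ^ N / q ^ j := fun j hj => by
      rw [sub_nonneg, div_le_one (by positivity)]
      exact pow_le_pow_of_le_one h0.le h1.le (by have := mem_range.1 hj; omega)
    have b : nu q N k ≤ de q N k := prod_le_prod a fun j _ => by
      have : q ^ (N + 2 + j) ≤ q ^ N / q ^ j := by
        rw [le_div_iff₀ (by positivity), ← pow_add]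
        exact pow_le_pow_of_le_one h0.le h1.le (by omega)
      linarith
    have d := de_pos h0 h1 N k
    have t0 : 0 ≤ tp q k := prod_nonneg fun _ _ => by positivity
    have n0 : 0 ≤ nu q N k := prod_nonneg a
    have : c q N k ≤ q ^ k := (mul_le_of_le_one_right t0 ((div_le_one d).2 b)).trans (tp_le h0 h1 k)
    have c0 : 0 ≤ c q N k := by unfold c; positivity
    rw [norm_mul, Real.norm_of_nonneg c0, u, norm_mul, norm_pow, norm_neg, norm_one, one_pow,
      one_mul, Real.norm_of_nonneg (by positivity)]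
    gcongr

theorem jacobi (h0 : 0 < q) (h1 : q < 1) :
    Tendsto (fun N => P q N ^ 3) atTop (𝓝 (∑' k, u k * tp q k)) := by
  simpa only [closed' h0 h1, mul_one] using (lim_sum h0 h1).mul (lim_de h0 h1)

theorem anti : AntitoneOn (fun q : ℝ => ∑' k, u k * tp q k) (Set.Ioo 0 1) := by
  intro a ha b hb hab
  refine le_of_tendsto_of_tendsto' (jacobi hb.1 hb.2) (jacobi ha.1 ha.2) fun N => ?_
  have h : ∀ j ∈ range N, 0 ≤ 1 - b ^ (j + 1) := fun j _ => (one_sub hb.1 hb.2 j).le
  refine pow_le_pow_left₀ (prod_nonneg h) (prod_le_prod h fun j _ => ?_) 3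
  have := pow_le_pow_left₀ ha.1.le hab (j + 1)
  linarith

theorem tp_sq (x : ℝ) (k : ℕ) : tp (x ^ 2) k = x ^ (k * (k + 1)) := by
  induction k with
  | zero => simp [tp]
  | succ k ih => rw [tp, prod_range_succ, ← tp, ih]; ring

end Pool.Agent.H.MP_27c522_an
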